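import Mathlib
import Pool.Agent.N476.CT.Fin

/-!
# The Coxeter sorting time of cyclic permutations is at most `(1/2 - tanh(1)/4) n² + 3 n`

`1/2 - tanh(1)/4 = 0.30960…`, to be compared with the conjectured `1/2 - π/16 = 0.30365…` and
with the previous upper bound `1/3`.
-/

set_option autoImplicit false

namespace Pool.Agent.Results.MP_8de615_co.TanhUpperBound

open Equiv

/-- number of inversions of `σ` -/
def inv {n : ℕ} (σ : Perm (Fin n)) : ℕ :=
  (Finset.univ.filter fun p : Fin n × Fin n => p.1 < p.2 ∧ σ p.2 < σ p.1).card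

/-- the `n`-cycles, that is, the conjugates of `c_n = finRotate n : i ↦ i + 1 (mod n)` -/
abbrev Cyc (n : ℕ) : Type := {γ : Perm (Fin n) // IsConj (finRotate n) γ}

/-- the cycle `c_n = (1, 2, …, n)` -/
def cyc (n : ℕ) : Cyc n := ⟨finRotate n, IsConj.refl _⟩

/-- the graph `Γ_n`: distinct `n`-cycles `a`, `b` are adjacent when `b = s a s` for an adjacent
transposition `s = (i, i + 1)` -/
def Gam (n : ℕ) : SimpleGraph (Cyc n) where
  Adj a b := a ≠ b ∧ ∃ i j : Fin n, (i : ℕ) + 1 = j ∧ b.1 = swap i j * a.1 * swap i j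
  symm := (Pool.Agent.N476.CT.Gam n).symm
  loopless := (Pool.Agent.N476.CT.Gam n).loopless

/-- `Sort_n`: the largest distance of an `n`-cycle from `c_n` in `Γ_n` -/
noncomputable def SortTime (n : ℕ) : ℕ∞ := ⨆ γ : Cyc n, (Gam n).edist (cyc n) γ

/-- `Sort_n` is finite and at most `(1/2 - tanh(1)/4) n² + 3 n`; and every permutation `σ` has a
rotation `σ c_n ^ i` with at most that many inversions. -/
theorem result :
    (∀ n : ℕ, 1 ≤ n → ∃ k : ℕ, SortTime n = k ∧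
      (k : ℝ) ≤ (1 / 2 - Real.tanh 1 / 4) * (n : ℝ) ^ 2 + 3 * n) ∧
    (∀ n : ℕ, 1 ≤ n → ∀ σ : Perm (Fin n), ∃ i < n,
      (inv (σ * (finRotate n) ^ i) : ℝ) ≤
        (1 / 2 - Real.tanh 1 / 4) * (n : ℝ) ^ 2 + 3 * n) := by
  refine ⟨fun n hn => ?_, fun n hn σ => Pool.Agent.N476.CT.exists_inv hn σ⟩
  set B : ℝ := (1 / 2 - Real.tanh 1 / 4) * (n : ℝ) ^ 2 + 3 * n with hB
  have hle : SortTime n ≤ (⌊B⌋₊ : ℕ∞) := by
    apply iSup_le
    intro γ
    obtain ⟨k, hk1, hk2⟩ := Pool.Agent.N476.CT.edist_bound hn γ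
    have h1 : k ≤ ⌊B⌋₊ := Nat.le_floor hk2
    have h2 : (k : ℕ∞) ≤ (⌊B⌋₊ : ℕ∞) := Nat.cast_le.mpr h1
    exact le_trans (le_trans (le_of_eq rfl) hk1) h2
  obtain ⟨k, hk⟩ := ENat.ne_top_iff_exists.mp (ne_top_of_le_ne_top (ENat.natCast_ne_top _) hle)
  refine ⟨k, hk.symm, ?_⟩
  rw [← hk] at hle
  have h1 : k ≤ ⌊B⌋₊ := by exact_mod_cast hle
  have h2 : 0 ≤ B := by
    have := Pool.Agent.N476.CT.tanh_one_lt_one
    have h3 : (0 : ℝ) ≤ n := Nat.cast_nonneg n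
    have h4 : 0 ≤ (1 / 2 - Real.tanh 1 / 4) := by linarith
    positivity
  calc (k : ℝ) ≤ (⌊B⌋₊ : ℝ) := by exact_mod_cast h1
    _ ≤ B := Nat.floor_le h2

end Pool.Agent.Results.MP_8de615_co.TanhUpperBound
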